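import Pool.Agent.W491.FS.Stm

open scoped Manifold ContDiff Topology

set_option autoImplicit false

namespace Pool.Agent.W135.FS.Geo

open Pool.Agent.W491.FS

/-- triangular fixed points -/
theorem fix {ι : Type} [Fintype ι] (rk : ι → ℕ) (Φ : (ι → ℂ) → (ι → ℂ))
    (hΦ : ∀ i b b', (∀ j, rk j < rk i → b j = b' j) → Φ b i = Φ b' i)
    (Q : (ι → ℂ) → Prop) (h0 : Q 0) (hQ : ∀ b, Q b → Q (Φ b)) : ∃ b, Q b ∧ Φ b = b := by
  have h1 : ∀ m, ∀ i, rk i < m → (Φ^[m + 1] 0) i = (Φ^[m] 0) i := by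
    intro m
    induction m with
    | zero => intro i hi; omega
    | succ m ih =>
      intro i hi
      have e1 : Φ^[m + 1 + 1] 0 = Φ (Φ^[m + 1] 0) := Function.iterate_succ_apply' Φ (m + 1) 0
      have e2 : Φ^[m + 1] 0 = Φ (Φ^[m] 0) := Function.iterate_succ_apply' Φ m 0
      have e3 : Φ (Φ^[m + 1] 0) i = Φ (Φ^[m] 0) i := by
        apply hΦ
        intro j hj
        exact ih j (by omega)
      rw [e1, e3, ← e2]
  have h2 : ∀ m, Q (Φ^[m] 0) := by
    intro m
    induction m with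
    | zero => exact h0
    | succ m ih => rw [Function.iterate_succ_apply']; exact hQ _ ih
  obtain ⟨R, hR⟩ : ∃ R, ∀ i, rk i < R :=
    ⟨Finset.univ.sup rk + 1, fun i => Nat.lt_succ_of_le (Finset.le_sup (Finset.mem_univ i))⟩
  refine ⟨Φ^[R] 0, h2 R, ?_⟩
  rw [← Function.iterate_succ_apply' Φ R]
  funext i
  exact h1 R i (hR i)

variable {ι : Type} [Fintype ι] (T : Law ι)

omit [Fintype ι] in
theorem lat_zero {sc : ι → ℕ} : IsLat sc (0 : ι → ℂ) := fun i => ⟨0, 0, by simp⟩

omit [Fintype ι] in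
theorem lat_add {sc : ι → ℕ} {a b : ι → ℂ} (ha : IsLat sc a) (hb : IsLat sc b) :
    IsLat sc (a + b) := by
  intro i
  obtain ⟨x, y, h⟩ := ha i
  obtain ⟨x', y', h'⟩ := hb i
  refine ⟨x + x', y + y', ?_⟩
  rw [Pi.add_apply, h, h']; push_cast; ring

omit [Fintype ι] in
theorem lat_neg {sc : ι → ℕ} {a : ι → ℂ} (ha : IsLat sc a) : IsLat sc (-a) := by
  intro i
  obtain ⟨x, y, h⟩ := ha i
  refine ⟨-x, -y, ?_⟩
  rw [Pi.neg_apply, h]; push_cast; ring

theorem lat_mul {a b : ι → ℂ} (ha : IsLat T.sc a) (hb : IsLat T.sc b) :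
    IsLat T.sc (T.mul a b) := lat_add (lat_add ha hb) (T.int a b ha hb)

theorem mul_assoc' (a b z : ι → ℂ) : T.mul a (T.mul b z) = T.mul (T.mul a b) z := T.assoc a b z

theorem zero_mul' (z : ι → ℂ) : T.mul 0 z = z := by
  unfold Law.mul; rw [T.zero_left]; simp

theorem exists_inv (a : ι → ℂ) (ha : IsLat T.sc a) : ∃ b, IsLat T.sc b ∧ T.mul b a = 0 := by
  obtain ⟨b, hb, hfix⟩ := fix T.rk (fun b => -a - T.h b a)
    (by
      intro i b b' h
      simp only [Pi.sub_apply, Pi.neg_apply]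
      rw [T.dep i b b' a a h (fun _ _ => rfl)])
    (IsLat T.sc) lat_zero
    (by
      intro b hb
      have := lat_add (lat_neg ha) (lat_neg (T.int b a hb ha))
      rwa [← sub_eq_add_neg] at this)
  refine ⟨b, hb, ?_⟩
  have h1 : -a - T.h b a = b := hfix
  unfold Law.mul
  nth_rewrite 1 [← h1]
  ring

/-- the lattice as a type -/
def Gm : Type := {a : ι → ℂ // IsLat T.sc a}

noncomputable instance : Mul (Gm T) := ⟨fun a b => ⟨T.mul a.1 b.1, lat_mul T a.2 b.2⟩⟩
noncomputable instance : One (Gm T) := ⟨⟨0, lat_zero⟩⟩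
noncomputable instance : Inv (Gm T) :=
  ⟨fun a => ⟨(exists_inv T a.1 a.2).choose, (exists_inv T a.1 a.2).choose_spec.1⟩⟩

noncomputable instance : Group (Gm T) := Group.ofLeftAxioms
  (fun a b c => Subtype.ext (mul_assoc' T a.1 b.1 c.1).symm)
  (fun a => Subtype.ext (zero_mul' T a.1))
  (fun a => Subtype.ext (exists_inv T a.1 a.2).choose_spec.2)

theorem act_zero {n : ℕ} (σ : ι ≃ Fin n) (z : CN n) : T.act σ 0 z = z := by
  funext i
  unfold Law.act
  rw [zero_mul']
  simp

theorem act_act {n : ℕ} (σ : ι ≃ Fin n) (a b : ι → ℂ) (z : CN n) :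
    T.act σ a (T.act σ b z) = T.act σ (T.mul a b) z := by
  funext i
  have : (fun j => T.act σ b z (σ j)) = T.mul b (fun j => z (σ j)) := by
    funext j
    unfold Law.act
    rw [σ.symm_apply_apply]
  show T.mul a (fun j => T.act σ b z (σ j)) (σ.symm i) = _
  rw [this, mul_assoc']
  rfl

/-- finitely many lattice points in a bounded set -/
theorem lat_finite (sc : ι → ℕ) (hsc : ∀ i, 0 < sc i) (B : ℝ) :
    {b : ι → ℂ | IsLat sc b ∧ ∀ i, ‖b i‖ ≤ B}.Finite := by
  have h1 : ∀ i, {w : ℂ | (∃ x y : ℤ, w = (sc i : ℂ) * ((x : ℂ) + (y : ℂ) * Complex.I)) ∧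
      ‖w‖ ≤ B}.Finite := by
    intro i
    have hf : ((fun t : ℤ × ℤ => (sc i : ℂ) * ((t.1 : ℂ) + (t.2 : ℂ) * Complex.I)) ''
        (Set.Icc (-⌈B⌉) ⌈B⌉ ×ˢ Set.Icc (-⌈B⌉) ⌈B⌉)).Finite :=
      ((Set.finite_Icc _ _).prod (Set.finite_Icc _ _)).image _
    apply hf.subset
    rintro w ⟨⟨x, y, hw⟩, hB⟩
    have hs : (1 : ℝ) ≤ sc i := by exact_mod_cast hsc i
    have hre : w.re = sc i * x := by rw [hw]; simp
    have him : w.im = sc i * y := by rw [hw]; simp
    have key : ∀ t : ℤ, |(sc i : ℝ) * t| ≤ B → t ∈ Set.Icc (-⌈B⌉) ⌈B⌉ := by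
      intro t ht
      have h2 : |(t : ℝ)| ≤ B := by
        refine le_trans ?_ ht
        rw [abs_mul, abs_of_pos (by linarith : (0 : ℝ) < sc i)]
        have := abs_nonneg (t : ℝ)
        nlinarith
      obtain ⟨h3, h4⟩ := abs_le.mp h2
      have h5 := Int.le_ceil B
      constructor
      · have : (-(⌈B⌉ : ℤ) : ℝ) ≤ (t : ℝ) := by linarith
        exact_mod_cast this
      · have : (t : ℝ) ≤ ((⌈B⌉ : ℤ) : ℝ) := by linarith
        exact_mod_cast this
    refine ⟨(x, y), ⟨key x ?_, key y ?_⟩, hw.symm⟩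
    · rw [← hre]; exact (Complex.abs_re_le_norm w).trans hB
    · rw [← him]; exact (Complex.abs_im_le_norm w).trans hB
  apply (Set.Finite.pi h1).subset
  rintro b ⟨hb, hB⟩
  rw [Set.mem_univ_pi]
  exact fun i => ⟨hb i, hB i⟩

/-- boundedness of the elements which move a compact set to itself -/
theorem bdd (K : Set (ι → ℂ)) (hK : IsCompact K) (m : ℕ) :
    ∃ B : ℝ, 0 ≤ B ∧ ∀ a, (∃ z ∈ K, T.mul a z ∈ K) → ∀ i, T.rk i < m → ‖a i‖ ≤ B := by
  induction m with
  | zero => exact ⟨0, le_rfl, fun a _ i hi => by omega⟩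
  | succ m ih =>
    obtain ⟨B, hB0, hB⟩ := ih
    have hcomp : IsCompact (Metric.closedBall (0 : ι → ℂ) B ×ˢ (K ×ˢ K)) :=
      (isCompact_closedBall _ _).prod (hK.prod hK)
    have hcont : Continuous (fun q : (ι → ℂ) × ((ι → ℂ) × (ι → ℂ)) => q.2.2 - q.2.1 - T.h q.1 q.2.1) := by
      have h1 : Continuous (fun q : (ι → ℂ) × ((ι → ℂ) × (ι → ℂ)) => T.h q.1 q.2.1) :=
        T.cont.comp (continuous_fst.prodMk (continuous_fst.comp continuous_snd))
      exact ((continuous_snd.comp continuous_snd).sub (continuous_fst.comp continuous_snd)).sub h1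
    obtain ⟨C, hC⟩ := (hcomp.image hcont).isBounded.exists_norm_le
    refine ⟨max B C, le_max_of_le_left hB0, ?_⟩
    rintro a ⟨z, hz, hmz⟩ i hi
    by_cases him : T.rk i < m
    · exact (hB a ⟨z, hz, hmz⟩ i him).trans (le_max_left _ _)
    · have hrk : T.rk i = m := by omega
      set a' : ι → ℂ := fun j => if T.rk j < m then a j else 0 with ha'
      have h1 : T.h a z i = T.h a' z i := by
        apply T.dep i a a' z z _ (fun _ _ => rfl)
        intro j hj
        rw [ha']
        simp only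
        rw [if_pos (by omega)]
      have h2 : a i = (T.mul a z - z - T.h a' z) i := by
        rw [Pi.sub_apply, Pi.sub_apply, ← h1]
        unfold Law.mul
        simp only [Pi.add_apply]
        ring
      have h3 : a' ∈ Metric.closedBall (0 : ι → ℂ) B := by
        rw [mem_closedBall_zero_iff, pi_norm_le_iff_of_nonneg hB0]
        intro j
        rw [ha']
        simp only
        split_ifs with hj
        · exact hB a ⟨z, hz, hmz⟩ j hj
        · rw [norm_zero]; exact hB0
      have h4 := hC _ ⟨(a', (z, T.mul a z)), ⟨h3, hz, hmz⟩, rfl⟩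
      rw [h2]
      exact ((norm_le_pi_norm _ i).trans h4).trans (le_max_right _ _)

theorem main (hq : S_QUO) : S_GEO := by
  intro n ι _ _ σ T
  let act : MulAction (Gm T) (CN n) :=
    { smul := fun a z => T.act σ a.1 z
      one_smul := fun z => act_zero T σ z
      mul_smul := fun a b z => (act_act T σ a.1 b.1 z).symm }
  have hsm : ∀ (a : Gm T) (z : CN n), a • z = T.act σ a.1 z := fun a z => rfl
  -- reindexing
  have hre : Continuous (fun (z : CN n) (j : ι) => z (σ j)) :=
    continuous_pi fun j => continuous_apply (σ j)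
  have hmul : ∀ (a : Gm T) (z : CN n), (fun j => (a • z) (σ j)) = T.mul a.1 (fun j => z (σ j)) := by
    intro a z
    funext j
    rw [hsm]
    unfold Law.act
    rw [σ.symm_apply_apply]
  have g1 : ∀ g : Gm T, ContDiff ℂ ω fun z : CN n => g • z := by
    intro a
    rw [contDiff_pi]
    intro i
    have h1 : ContDiff ℂ ω (fun (z : CN n) (j : ι) => z (σ j)) :=
      contDiff_pi.mpr fun j => contDiff_apply ℂ ℂ (σ j)
    have h2 : ContDiff ℂ ω (fun z : CN n => T.h a.1 (fun j => z (σ j)) (σ.symm i)) :=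
      (contDiff_pi.mp ((T.hol a.1).comp h1)) (σ.symm i)
    have h3 : (fun z : CN n => (a • z) i) = fun z : CN n => a.1 (σ.symm i) + z (σ (σ.symm i)) +
        T.h a.1 (fun j => z (σ j)) (σ.symm i) := by
      funext z
      rw [hsm]
      rfl
    rw [h3]
    exact (contDiff_const.add (contDiff_apply ℂ ℂ (σ (σ.symm i)))).add h2
  have g2 : ∀ K : Set (CN n), IsCompact K →
      {g : Gm T | ((fun z : CN n => g • z) '' K ∩ K).Nonempty}.Finite := by
    intro K hK
    set K' : Set (ι → ℂ) := (fun (z : CN n) (j : ι) => z (σ j)) '' K with hK'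
    have hK'c : IsCompact K' := hK.image hre
    obtain ⟨B, hB0, hB⟩ := bdd T K' hK'c (Finset.univ.sup T.rk + 1)
    have hfin := lat_finite T.sc T.sc_pos B
    have hsub : {g : Gm T | ((fun z : CN n => g • z) '' K ∩ K).Nonempty} ⊆
        (fun g : Gm T => g.1) ⁻¹' {b : ι → ℂ | IsLat T.sc b ∧ ∀ i, ‖b i‖ ≤ B} := by
      rintro g ⟨_, ⟨z, hz, rfl⟩, hgz⟩
      refine ⟨g.2, fun i => hB g.1 ⟨fun j => z (σ j), ⟨z, hz, rfl⟩, ?_⟩ i
        (Nat.lt_succ_of_le (Finset.le_sup (Finset.mem_univ i)))⟩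
      rw [← hmul]
      exact ⟨g • z, hgz, rfl⟩
    exact (hfin.preimage (fun a _ b _ h => Subtype.ext h)).subset hsub
  have g3 : ∀ (g : Gm T) (z : CN n), g • z = z → g = 1 := by
    intro a z haz
    have h1 : T.mul a.1 (fun j => z (σ j)) = fun j => z (σ j) := by
      rw [← hmul, haz]
    apply Subtype.ext
    show a.1 = 0
    have h2 : ∀ m, ∀ i, T.rk i < m → a.1 i = 0 := by
      intro m
      induction m with
      | zero => intro i hi; omega
      | succ m ih =>
        intro i hi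
        have h3 : T.h a.1 (fun j => z (σ j)) i = T.h 0 (fun j => z (σ j)) i := by
          apply T.dep i _ _ _ _ _ (fun _ _ => rfl)
          intro j hj
          exact ih j (by omega)
        rw [T.zero_left] at h3
        have h4 := congrFun h1 i
        unfold Law.mul at h4
        simp only [Pi.add_apply] at h4
        rw [h3] at h4
        simpa using h4
    funext i
    exact h2 (T.rk i + 1) i (by omega)
  have g4 : ∃ K : Set (CN n), IsCompact K ∧ ∀ z : CN n, ∃ g : Gm T, g • z ∈ K := by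
    refine ⟨Metric.closedBall 0 (∑ i, (T.sc i : ℝ)), isCompact_closedBall _ _, ?_⟩
    intro z
    -- rounding
    let rd : ι → ℂ → ℂ := fun i w => (T.sc i : ℂ) * ((round (w.re / T.sc i) : ℤ) +
      (round (w.im / T.sc i) : ℤ) * Complex.I)
    have hrd : ∀ i w, ‖w - rd i w‖ ≤ T.sc i := by
      intro i w
      have hs : (0 : ℝ) < T.sc i := by exact_mod_cast T.sc_pos i
      have key : ∀ t : ℝ, |t - T.sc i * round (t / T.sc i)| ≤ T.sc i / 2 := by
        intro t
        have h1 := abs_sub_round (t / T.sc i)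
        have h2 : t - T.sc i * round (t / T.sc i) = T.sc i * (t / T.sc i - round (t / T.sc i)) := by
          rw [mul_sub, mul_div_cancel₀ _ hs.ne']
        rw [h2, abs_mul, abs_of_pos hs]
        calc (T.sc i : ℝ) * |t / T.sc i - round (t / T.sc i)| ≤ T.sc i * (1 / 2) :=
              mul_le_mul_of_nonneg_left h1 hs.le
          _ = _ := by ring
      refine (Complex.norm_le_abs_re_add_abs_im _).trans ?_
      have h3 : (w - rd i w).re = w.re - T.sc i * round (w.re / T.sc i) := by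
        simp [rd]
      have h4 : (w - rd i w).im = w.im - T.sc i * round (w.im / T.sc i) := by
        simp [rd]
      rw [h3, h4]
      have := key w.re
      have := key w.im
      linarith
    obtain ⟨a, ha, hfix⟩ := fix T.rk
      (fun a i => - rd i (z (σ i) + T.h a (fun j => z (σ j)) i))
      (by
        intro i b b' h
        rw [T.dep i b b' _ _ h (fun _ _ => rfl)])
      (IsLat T.sc) lat_zero
      (by
        intro b _ i
        refine ⟨-round ((z (σ i) + T.h b (fun j => z (σ j)) i).re / T.sc i),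
          -round ((z (σ i) + T.h b (fun j => z (σ j)) i).im / T.sc i), ?_⟩
        simp only [rd]
        push_cast
        ring)
    let ga : Gm T := ⟨a, ha⟩
    refine ⟨ga, ?_⟩
    rw [mem_closedBall_zero_iff, pi_norm_le_iff_of_nonneg (by positivity)]
    intro i
    have h1 : (ga • z) i = T.mul a (fun j => z (σ j)) (σ.symm i) := rfl
    have h2 : -rd (σ.symm i) (z (σ (σ.symm i)) + T.h a (fun j => z (σ j)) (σ.symm i)) =
        a (σ.symm i) := congrFun hfix (σ.symm i)
    rw [h1]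
    have h5 : T.mul a (fun j => z (σ j)) (σ.symm i) =
        (z (σ (σ.symm i)) + T.h a (fun j => z (σ j)) (σ.symm i)) -
          rd (σ.symm i) (z (σ (σ.symm i)) + T.h a (fun j => z (σ j)) (σ.symm i)) := by
      have h6 : T.mul a (fun j => z (σ j)) (σ.symm i) = a (σ.symm i) + z (σ (σ.symm i)) +
        T.h a (fun j => z (σ j)) (σ.symm i) := rfl
      rw [h6]
      linear_combination -h2
    rw [h5]
    refine (hrd _ _).trans ?_
    exact Finset.single_le_sum (f := fun i => (T.sc i : ℝ)) (fun i _ => Nat.cast_nonneg _)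
      (Finset.mem_univ (σ.symm i))
  obtain ⟨X, tX, cX, mX, h1, h2, h3, h4⟩ := hq n (Gm T) g1 g2 g3 g4
  refine ⟨X, tX, cX, mX, h1, h2, h3, ?_⟩
  intro c c' y hy
  obtain ⟨g, hg⟩ := h4 c c' y hy
  exact ⟨g.1, g.2, hg⟩

end Pool.Agent.W135.FS.Geo
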