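import Pool.Agent.W491.FS.Stm

open scoped Manifold ContDiff Topology

set_option autoImplicit false

namespace Pool.Agent.W135.FS.Quo

open Pool.Agent.W491.FS

theorem main : S_QUO := by
  intro n G _ _ h1 h2 h3 h4
  have i1 : ContinuousConstSMul G (CN n) := ⟨fun g => (h1 g).continuous⟩
  have i2 : ProperlyDiscontinuousSMul G (CN n) := by
    constructor
    intro K L hK hL
    refine (h2 (K ∪ L) (hK.union hL)).subset ?_
    intro g hg
    have hg' : ((fun z : CN n => g • z) '' K ∩ L).Nonempty := hg
    obtain ⟨y, hy1, hy2⟩ := hg'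
    refine ⟨y, ?_, Or.inr hy2⟩
    obtain ⟨x, hx, rfl⟩ := hy1
    exact ⟨x, Or.inl hx, rfl⟩
  have i3 : IsCancelSMul G (CN n) := by
    constructor
    intro a b c hab
    have h5 : (b⁻¹ * a) • c = c := by
      rw [mul_smul, hab, inv_smul_smul]
    have h6 := h3 _ _ h5
    rw [inv_mul_eq_one] at h6
    exact h6.symm
  let X : Type := MulAction.orbitRel.Quotient G (CN n)
  let f : CN n → X := Quotient.mk (MulAction.orbitRel G (CN n))
  have hf : IsLocalHomeomorph f :=
    isQuotientCoveringMap_quotientMk_of_properlyDiscontinuousSMul.isCoveringMap.isLocalHomeomorph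
  have hsurj : Function.Surjective f := Quotient.mk_surjective
  let cs : ChartedSpace (CN n) X := hf.chartedSpace hsurj
  have hfeq : ∀ x y : CN n, f x = f y ↔ ∃ g : G, g • y = x := by
    intro x y
    rw [Quotient.eq'']
    exact MulAction.orbitRel_apply
  have hatl : ∀ c ∈ atlas (CN n) X, ∀ y ∈ c.target, c.symm y = f y := by
    rintro c ⟨q, rfl⟩ y _
    rw [OpenPartialHomeomorph.trans_symm_eq_symm_trans_symm]
    simp only [OpenPartialHomeomorph.coe_trans, Function.comp, chartAt_self_eq,
      OpenPartialHomeomorph.refl_symm, OpenPartialHomeomorph.refl_apply]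
    rw [hf.localInverseAt_symm]
    rfl
  have htr : ∀ c ∈ atlas (CN n) X, ∀ c' ∈ atlas (CN n) X, ∀ y ∈ (c.symm.trans c').source,
      ∃ g : G, ∀ᶠ z in 𝓝 y, (c.symm.trans c') z = g • z := by
    intro c hc c' hc' y hy
    have hmem : ∀ z ∈ (c.symm.trans c').source, z ∈ c.target ∧ c.symm z ∈ c'.source := by
      intro z hz
      rw [OpenPartialHomeomorph.trans_source, OpenPartialHomeomorph.symm_source] at hz
      exact hz
    have hval : ∀ z ∈ (c.symm.trans c').source, (c.symm.trans c') z ∈ c'.target ∧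
        f ((c.symm.trans c') z) = f z := by
      intro z hz
      obtain ⟨hz1, hz2⟩ := hmem z hz
      have h5 : (c.symm.trans c') z = c' (c.symm z) := rfl
      have h6 : c' (c.symm z) ∈ c'.target := c'.map_source hz2
      refine ⟨by rw [h5]; exact h6, ?_⟩
      rw [h5, ← hatl c' hc' _ h6, c'.left_inv hz2, hatl c hc z hz1]
    obtain ⟨h5, h6⟩ := hval y hy
    obtain ⟨g, hg⟩ := (hfeq _ _).mp h6
    refine ⟨g, ?_⟩
    have hopen := (c.symm.trans c').open_source
    have hcont : ContinuousAt (fun z : CN n => g • z) y := (h1 g).continuous.continuousAt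
    have hnh : ∀ᶠ z in 𝓝 y, g • z ∈ c'.target :=
      hcont (c'.open_target.mem_nhds (by show g • y ∈ c'.target; rw [hg]; exact h5))
    filter_upwards [hopen.mem_nhds hy, hnh] with z hz1 hz2
    obtain ⟨h7, h8⟩ := hval z hz1
    apply c'.symm.injOn h7 hz2
    rw [hatl c' hc' _ h7, hatl c' hc' _ hz2, h8, hfeq]
    exact ⟨g⁻¹, by rw [inv_smul_smul]⟩
  have hman : IsManifold 𝓘(ℂ, CN n) ω X := by
    apply isManifold_of_contDiffOn
    intro c c' hc hc'
    simp only [mfld_simps]
    intro y hy
    have hy' : y ∈ (c.symm.trans c').source := by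
      rw [OpenPartialHomeomorph.trans_source, OpenPartialHomeomorph.symm_source]
      exact hy
    obtain ⟨g, hg⟩ := htr c hc c' hc' y hy'
    have h5 : ContDiffAt ℂ ω (c.symm.trans c') y :=
      ((h1 g).contDiffAt).congr_of_eventuallyEq hg
    exact h5.contDiffWithinAt
  refine ⟨X, inferInstance, cs, hman, ?_, ?_, ?_, ?_⟩
  · obtain ⟨K, hK, hcov⟩ := h4
    constructor
    have h5 : (Set.univ : Set X) = f '' K := by
      apply Set.eq_of_subset_of_subset
      · rintro x -
        obtain ⟨z, rfl⟩ := hsurj x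
        obtain ⟨g, hg⟩ := hcov z
        exact ⟨g • z, hg, (hfeq _ _).mpr ⟨g, rfl⟩⟩
      · exact Set.subset_univ _
    rw [h5]
    exact hK.image hf.continuous
  · exact inferInstanceAs (T2Space (Quotient (MulAction.orbitRel G (CN n))))
  · exact hsurj.connectedSpace hf.continuous
  · intro c c' y hy
    exact htr c.1 c.2 c'.1 c'.2 y hy

end Pool.Agent.W135.FS.Quo
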